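import Mathlib
import Pool.Agent.R175.HexTri2
import Pool.Agent.R175.Disk

/-!
# Three hexagons in a row lie in a tiling but in no convex patch

A side common to two hexagons of a convex patch lies on a line along which sides between two hexagons and sides
between two triangles alternate until the line leaves the patch.  If two such parallel lines are stacked then
neither of them can leave the patch, so the patch is infinite.
-/

set_option autoImplicit false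

namespace Pool.Agent.Results.MP_12bd27_co.ThreeHexagons

open Set Pool.Agent.R175.TriGeo Pool.Agent.R175.HexTile Pool.Agent.R175.HexTri

/-- A family of regular triangles and regular hexagons placed edge-to-edge: two different tiles meet in a set
of zero area, and they are disjoint, or meet in one common corner, or meet in one common side. -/
structure IsArrangement (F : Set (Set ℂ)) : Prop where
  tiles : ∀ T ∈ F, IsTri T ∨ IsHex T
  area : ∀ S ∈ F, ∀ T ∈ F, S ≠ T → MeasureTheory.volume (S ∩ T) = 0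
  edge : ∀ S ∈ F, ∀ T ∈ F, S ≠ T → S ∩ T = ∅ ∨ (∃ v, IsCorner S v ∧ IsCorner T v ∧ S ∩ T = {v}) ∨
    (∃ e, IsSide S e ∧ IsSide T e ∧ S ∩ T = e)

/-- A closed topological disk. -/
def IsDisk (C : Set ℂ) : Prop := IsClosed C ∧ Nonempty (C ≃ₜ Metric.closedBall (0 : ℂ) 1)

/-- A patch: a finite edge-to-edge family of regular triangles and hexagons whose union is a disk and in which
at most two triangles and at most two hexagons meet at each vertex. -/
structure IsPatch (F : Set (Set ℂ)) : Prop where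
  finite : F.Finite
  arr : IsArrangement F
  disk : IsDisk (⋃₀ F)
  admissible : ∀ v, (∃ T ∈ F, IsCorner T v) →
    {T | T ∈ F ∧ IsTri T ∧ v ∈ T}.encard ≤ 2 ∧ {T | T ∈ F ∧ IsHex T ∧ v ∈ T}.encard ≤ 2

/-- A tiling of the plane by regular triangles and hexagons, edge-to-edge, with exactly two triangles and
exactly two hexagons at each vertex. -/
structure IsTiling (F : Set (Set ℂ)) : Prop where
  arr : IsArrangement F
  cover : ⋃₀ F = univ
  vertex : ∀ v, (∃ T ∈ F, IsCorner T v) →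
    {T | T ∈ F ∧ IsTri T ∧ v ∈ T}.encard = 2 ∧ {T | T ∈ F ∧ IsHex T ∧ v ∈ T}.encard = 2

/-! ### The walk along the two lines -/

theorem three_of {F : Set (Set ℂ)} (P : Set ℂ → Prop) {v : ℂ}
    (h : {T | T ∈ F ∧ P T ∧ v ∈ T}.encard ≤ 2) {T₁ T₂ T₃ : Set ℂ} (h1 : T₁ ∈ F ∧ P T₁ ∧ v ∈ T₁)
    (h2 : T₂ ∈ F ∧ P T₂ ∧ v ∈ T₂) (h3 : T₃ ∈ F ∧ P T₃ ∧ v ∈ T₃) (h12 : T₁ ≠ T₂) (h13 : T₁ ≠ T₃)
    (h23 : T₂ ≠ T₃) : False := by
  have hsub : ({T₁, T₂, T₃} : Set (Set ℂ)) ⊆ {T | T ∈ F ∧ P T ∧ v ∈ T} := by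
    rintro T (rfl | rfl | rfl)
    · exact h1
    · exact h2
    · exact h3
  have hc : ({T₁, T₂, T₃} : Set (Set ℂ)).encard = 3 := by
    rw [Set.encard_eq_three]
    exact ⟨T₁, T₂, T₃, h12, h13, h23, rfl⟩
  have := (encard_le_encard hsub).trans h
  rw [hc] at this
  exact absurd this (by norm_num)

theorem neg_one_ne : (-1 : ℂ) ≠ 0 := by norm_num
theorem norm_neg_one : ‖(-1 : ℂ)‖ = 1 := by simp
theorem norm_one' : ‖(1 : ℂ)‖ = 1 := by simp
theorem zz_ne : ζ * ζ ≠ 0 := mul_ne_zero zeta_ne zeta_ne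
theorem norm_zz : ‖ζ * ζ‖ = 1 := by rw [norm_mul, zeta_norm, one_mul]
theorem A_two : A 2 = 2 := by
  have := A_real 2
  push_cast at this; exact this
theorem B_two : B 2 = 0 := by
  have := B_real 2
  push_cast at this; exact this
theorem A_three : A 3 = 3 := by
  have := A_real 3
  push_cast at this; exact this
theorem B_three : B 3 = 0 := by
  have := B_real 3
  push_cast at this; exact this
theorem two_zeta : 2 * ζ = ζ + ζ := by ring

/-- Two hexagons on the two sides of `[p, p + 1]`. -/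
def FH (F : Set (Set ℂ)) (p : ℂ) : Prop := hex p 1 ∈ F ∧ hex (p + 1) (-1) ∈ F
/-- Two triangles on the two sides of `[p, p + 1]`. -/
def FT (F : Set (Set ℂ)) (p : ℂ) : Prop := tri p 1 ∈ F ∧ tri (p + 1) (-1) ∈ F

theorem isHex_of {a u : ℂ} (h : ‖u‖ = 1) : IsHex (hex a u) := ⟨a, u, h, rfl⟩
theorem isTri_of {a u : ℂ} (h : ‖u‖ = 1) : IsTri (tri a u) := ⟨a, u, h, rfl⟩

/-- After two hexagons come two triangles. -/
theorem stepA {F : Set (Set ℂ)} (hF : IsPatch F) {p : ℂ} (h : FH F p) (hK : p + 1 ∈ interior (⋃₀ F)) :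
    FT F (p + 1) := by
  obtain ⟨h1, h2⟩ := h
  have r1 : hex p 1 = hex (p + 1) ζ := by
    rw [rot_hex one_ne_zero, mul_one]
  have r2 : hex (p + 1) (-1) = hex (p + 2 - ζ) (ζ * ζ) := by
    rw [rot_hex zz_ne]
    congr 1
    · linear_combination (-1) * zeta_sq
    · linear_combination -zeta3
  have hz : ‖-ζ‖ = 1 := by rw [norm_neg]; exact zeta_norm
  have hzz : ‖-(ζ * ζ)‖ = 1 := by rw [norm_neg]; exact norm_zz
  have adm := (hF.admissible (p + 1) ⟨_, h2, ⟨-1, norm_neg_one, Or.inr rfl⟩⟩).2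
  have hne : hex p 1 ≠ hex (p + 1) (-1) := by
    intro he
    have : p + 2 * ζ * 1 ∈ hex (p + 1) (-1) := he ▸ (hex_corner p 1).2.2.2.1
    rw [mem_hex neg_one_ne, A_ndiv, B_ndiv, A_odiv, B_odiv] at this
    have e : p + 2 * ζ * 1 - (p + 1) = ζ + ζ - 1 := by ring
    rw [e, B_sub, B_add, B_zeta, B_one] at this
    linarith [this.2.1.1]
  have c1 : p + 1 ∈ hex p 1 := (hex_corner p 1).2.1
  have c2 : p + 1 ∈ hex (p + 1) (-1) := (hex_corner (p + 1) (-1)).1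
  constructor
  · obtain ⟨T, hT, hs⟩ := across_end hF.finite hF.arr.tiles hF.arr.edge h1 (a := p + 1) (u := ζ) zeta_norm
      (Or.inr r1) (Or.inl hK)
    rcases hs with rfl | rfl
    · have e : tri (p + 1 + ζ) (-ζ) = tri (p + 1) 1 := by
        rw [rot_tri (neg_ne_zero.2 zeta_ne)]
        congr 1
        · ring
        · linear_combination -zeta3
      rwa [e] at hT
    · exfalso
      have c3 : p + 1 ∈ hex (p + 1 + ζ) (-ζ) := by
        have := (hex_corner (p + 1 + ζ) (-ζ)).2.1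
        have e : p + 1 + ζ + -ζ = p + 1 := by ring
        rwa [e] at this
      refine three_of IsHex adm ⟨h1, isHex_of norm_one', c1⟩ ⟨h2, isHex_of norm_neg_one, c2⟩
        ⟨hT, isHex_of hz, c3⟩ hne ?_ ?_
      · intro he
        have : p + 3 ∈ hex p 1 := by
          rw [he, mem_hex (neg_ne_zero.2 zeta_ne), A_ndiv, B_ndiv, A_zdiv, B_zdiv]
          have e : p + 3 - (p + 1 + ζ) = 2 - ζ := by ring
          rw [e, A_sub, B_sub, A_two, B_two, A_zeta, B_zeta]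
          norm_num
        rw [mem_hex one_ne_zero, A_odiv] at this
        have e : p + 3 - p = 3 := by ring
        rw [e, A_three] at this
        linarith [this.1.2]
      · intro he
        have : p + 3 ∈ hex (p + 1) (-1) := by
          rw [he, mem_hex (neg_ne_zero.2 zeta_ne), A_ndiv, B_ndiv, A_zdiv, B_zdiv]
          have e : p + 3 - (p + 1 + ζ) = 2 - ζ := by ring
          rw [e, A_sub, B_sub, A_two, B_two, A_zeta, B_zeta]
          norm_num
        rw [mem_hex neg_one_ne, A_ndiv, A_odiv] at this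
        have e : p + 3 - (p + 1) = 2 := by ring
        rw [e, A_two] at this
        linarith [this.1.1]
  · have e0 : p + 2 - ζ + ζ * ζ = p + 1 := by linear_combination zeta_sq
    obtain ⟨T, hT, hs⟩ := across_end hF.finite hF.arr.tiles hF.arr.edge h2 (a := p + 2 - ζ) (u := ζ * ζ) norm_zz
      (Or.inr r2) (Or.inr (by rw [e0]; exact hK))
    rw [e0] at hs
    rcases hs with rfl | rfl
    · have e : tri (p + 1) (-(ζ * ζ)) = tri (p + 1 + 1) (-1) := by
        rw [rot_tri (a := p + 1 + 1) (u := -1) neg_one_ne]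
        congr 1
        · ring
        · ring
      rwa [e] at hT
    · exfalso
      have c3 : p + 1 ∈ hex (p + 1) (-(ζ * ζ)) := (hex_corner _ _).1
      have c4 : p + 3 ∈ hex (p + 1) (-(ζ * ζ)) := by
        rw [mem_hex (neg_ne_zero.2 zz_ne), A_ndiv, B_ndiv, A_zzdiv, B_zzdiv]
        have e : p + 3 - (p + 1) = 2 := by ring
        rw [e, A_two, B_two]
        norm_num
      refine three_of IsHex adm ⟨h1, isHex_of norm_one', c1⟩ ⟨h2, isHex_of norm_neg_one, c2⟩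
        ⟨hT, isHex_of hzz, c3⟩ hne ?_ ?_
      · intro he
        rw [← he, mem_hex one_ne_zero, A_odiv] at c4
        have e : p + 3 - p = 3 := by ring
        rw [e, A_three] at c4
        linarith [c4.1.2]
      · intro he
        rw [← he, mem_hex neg_one_ne, A_ndiv, A_odiv] at c4
        have e : p + 3 - (p + 1) = 2 := by ring
        rw [e, A_two] at c4
        linarith [c4.1.1]

theorem tri_ne (p : ℂ) : tri p 1 ≠ tri (p + 1) (-1) := by
  intro he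
  have : p + ζ * 1 ∈ tri (p + 1) (-1) := he ▸ (tri_corner p 1).2.2
  rw [mem_tri neg_one_ne, A_ndiv, B_ndiv, A_odiv, B_odiv] at this
  have e : p + ζ * 1 - (p + 1) = ζ - 1 := by ring
  rw [e, B_sub, B_zeta, B_one] at this
  linarith [this.2.1]

/-- After two triangles comes a hexagon on the upper side. -/
theorem stepB1 {F : Set (Set ℂ)} (hF : IsPatch F) {p : ℂ} (h : FT F p) {m : ℂ}
    (hm : m ∈ openSegment ℝ (p + 1) (p + 1 + ζ * ζ)) (hK : m ∈ interior (⋃₀ F)) :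
    hex (p + 1) 1 ∈ F := by
  obtain ⟨h1, h2⟩ := h
  have r1 : tri p 1 = tri (p + 1) (ζ * ζ) := by
    rw [rot_tri one_ne_zero, mul_one]
  have adm := (hF.admissible (p + 1) ⟨_, h2, ⟨-1, norm_neg_one, Or.inl rfl⟩⟩).1
  have hzz : ‖-(ζ * ζ)‖ = 1 := by rw [norm_neg]; exact norm_zz
  have c1 : p + 1 ∈ tri p 1 := (tri_corner p 1).2.1
  have c2 : p + 1 ∈ tri (p + 1) (-1) := (tri_corner (p + 1) (-1)).1
  obtain ⟨T, hT, hs⟩ := across hF.finite hF.arr.tiles hF.arr.edge h1 (a := p + 1) (u := ζ * ζ) norm_zz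
      (Or.inl r1) hm hK
  rcases hs with rfl | rfl
  · exfalso
    have c3 : p + 1 ∈ tri (p + 1 + ζ * ζ) (-(ζ * ζ)) := by
      have := (tri_corner (p + 1 + ζ * ζ) (-(ζ * ζ))).2.1
      have e : p + 1 + ζ * ζ + -(ζ * ζ) = p + 1 := by ring
      rwa [e] at this
    have c4 : p + 1 + ζ ∈ tri (p + 1 + ζ * ζ) (-(ζ * ζ)) := by
      rw [mem_tri (neg_ne_zero.2 zz_ne), A_ndiv, B_ndiv, A_zzdiv, B_zzdiv]
      have e : p + 1 + ζ - (p + 1 + ζ * ζ) = 1 := by linear_combination (-1) * zeta_sq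
      rw [e, A_one, B_one]
      norm_num
    refine three_of IsTri adm ⟨h1, isTri_of norm_one', c1⟩ ⟨h2, isTri_of norm_neg_one, c2⟩
        ⟨hT, isTri_of hzz, c3⟩ (tri_ne p) ?_ ?_
    · intro he
      rw [← he, mem_tri one_ne_zero, A_odiv, B_odiv] at c4
      have e : p + 1 + ζ - p = 1 + ζ := by ring
      rw [e, A_add, B_add, A_one, B_one, A_zeta, B_zeta] at c4
      linarith [c4.2.2]
    · intro he
      rw [← he, mem_tri neg_one_ne, A_ndiv, B_ndiv, A_odiv, B_odiv] at c4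
      have e : p + 1 + ζ - (p + 1) = ζ := by ring
      rw [e, A_zeta, B_zeta] at c4
      linarith [c4.2.1]
  · have e : hex (p + 1 + ζ * ζ) (-(ζ * ζ)) = hex (p + 1) 1 := by
      rw [rot_hex (neg_ne_zero.2 zz_ne)]
      congr 1
      · ring
      · linear_combination -zeta3
    rwa [e] at hT

/-- After two triangles come two hexagons. -/
theorem stepB {F : Set (Set ℂ)} (hF : IsPatch F) {p : ℂ} (h : FT F p) (hK : p + 1 ∈ interior (⋃₀ F)) :
    FH F (p + 1) := by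
  have hh := h
  obtain ⟨h1, h2⟩ := h
  have r1 : tri p 1 = tri (p + 1) (ζ * ζ) := by
    rw [rot_tri one_ne_zero, mul_one]
  have r2 : tri (p + 1) (-1) = tri (p + 1 - ζ) ζ := by
    rw [rot_tri (a := p + 1 - ζ) zeta_ne]
    congr 1
    · ring
    · linear_combination -zeta3
  have adm := (hF.admissible (p + 1) ⟨_, h2, ⟨-1, norm_neg_one, Or.inl rfl⟩⟩).1
  have hzz : ‖-(ζ * ζ)‖ = 1 := by rw [norm_neg]; exact norm_zz
  have hz : ‖-ζ‖ = 1 := by rw [norm_neg]; exact zeta_norm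
  have c1 : p + 1 ∈ tri p 1 := (tri_corner p 1).2.1
  have c2 : p + 1 ∈ tri (p + 1) (-1) := (tri_corner (p + 1) (-1)).1
  constructor
  · obtain ⟨T, hT, hs⟩ := across_end hF.finite hF.arr.tiles hF.arr.edge h1 (a := p + 1) (u := ζ * ζ) norm_zz
      (Or.inl r1) (Or.inl hK)
    rcases hs with rfl | rfl
    · exfalso
      have c3 : p + 1 ∈ tri (p + 1 + ζ * ζ) (-(ζ * ζ)) := by
        have := (tri_corner (p + 1 + ζ * ζ) (-(ζ * ζ))).2.1
        have e : p + 1 + ζ * ζ + -(ζ * ζ) = p + 1 := by ring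
        rwa [e] at this
      have c4 : p + 1 + ζ ∈ tri (p + 1 + ζ * ζ) (-(ζ * ζ)) := by
        rw [mem_tri (neg_ne_zero.2 zz_ne), A_ndiv, B_ndiv, A_zzdiv, B_zzdiv]
        have e : p + 1 + ζ - (p + 1 + ζ * ζ) = 1 := by linear_combination (-1) * zeta_sq
        rw [e, A_one, B_one]
        norm_num
      refine three_of IsTri adm ⟨h1, isTri_of norm_one', c1⟩ ⟨h2, isTri_of norm_neg_one, c2⟩
          ⟨hT, isTri_of hzz, c3⟩ (tri_ne p) ?_ ?_
      · intro he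
        rw [← he, mem_tri one_ne_zero, A_odiv, B_odiv] at c4
        have e : p + 1 + ζ - p = 1 + ζ := by ring
        rw [e, A_add, B_add, A_one, B_one, A_zeta, B_zeta] at c4
        linarith [c4.2.2]
      · intro he
        rw [← he, mem_tri neg_one_ne, A_ndiv, B_ndiv, A_odiv, B_odiv] at c4
        have e : p + 1 + ζ - (p + 1) = ζ := by ring
        rw [e, A_zeta, B_zeta] at c4
        linarith [c4.2.1]
    · have e : hex (p + 1 + ζ * ζ) (-(ζ * ζ)) = hex (p + 1) 1 := by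
        rw [rot_hex (neg_ne_zero.2 zz_ne)]
        congr 1
        · ring
        · linear_combination -zeta3
      rwa [e] at hT
  · have e0 : p + 1 - ζ + ζ = p + 1 := by ring
    obtain ⟨T, hT, hs⟩ := across_end hF.finite hF.arr.tiles hF.arr.edge h2 (a := p + 1 - ζ) (u := ζ) zeta_norm
      (Or.inl r2) (Or.inr (by rw [e0]; exact hK))
    rw [e0] at hs
    rcases hs with rfl | rfl
    · exfalso
      have c3 : p + 1 ∈ tri (p + 1) (-ζ) := (tri_corner _ _).1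
      have c4 : p + 2 - ζ ∈ tri (p + 1) (-ζ) := by
        rw [mem_tri (neg_ne_zero.2 zeta_ne), A_ndiv, B_ndiv, A_zdiv, B_zdiv]
        have e : p + 2 - ζ - (p + 1) = 1 - ζ := by ring
        rw [e, A_sub, B_sub, A_one, B_one, A_zeta, B_zeta]
        norm_num
      refine three_of IsTri adm ⟨h1, isTri_of norm_one', c1⟩ ⟨h2, isTri_of norm_neg_one, c2⟩
          ⟨hT, isTri_of hz, c3⟩ (tri_ne p) ?_ ?_
      · intro he
        rw [← he, mem_tri one_ne_zero, A_odiv, B_odiv] at c4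
        have e : p + 2 - ζ - p = 2 - ζ := by ring
        rw [e, A_sub, B_sub, A_two, B_two, A_zeta, B_zeta] at c4
        linarith [c4.2.1]
      · intro he
        rw [← he, mem_tri neg_one_ne, A_ndiv, B_ndiv, A_odiv, B_odiv] at c4
        have e : p + 2 - ζ - (p + 1) = 1 - ζ := by ring
        rw [e, A_sub, B_sub, A_one, B_one, A_zeta, B_zeta] at c4
        linarith [c4.1]
    · have e : hex (p + 1 + 1) (-1) = hex (p + 1) (-ζ) := by
        rw [rot_hex (a := p + 1 + 1) neg_one_ne]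
        congr 1
        · ring
        · ring
      rwa [← e] at hT

/-! ### Interior points of the union -/

theorem int_tri {a u : ℂ} (hu : u ≠ 0) {z : ℂ} (h1 : 0 < A ((z - a) / u)) (h2 : 0 < B ((z - a) / u))
    (h3 : A ((z - a) / u) + B ((z - a) / u) < 1) : z ∈ interior (tri a u) := by
  rw [mem_interior]
  have hA : Continuous fun w => A ((w - a) / u) := A_cont.comp (by fun_prop)
  have hB : Continuous fun w => B ((w - a) / u) := B_cont.comp (by fun_prop)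
  refine ⟨{w | 0 < A ((w - a) / u)} ∩ {w | 0 < B ((w - a) / u)} ∩ {w | A ((w - a) / u) + B ((w - a) / u) < 1},
    ?_, ?_, ⟨⟨h1, h2⟩, h3⟩⟩
  · rintro w ⟨⟨g1, g2⟩, g3⟩
    rw [mem_tri hu]
    exact ⟨le_of_lt g1, le_of_lt g2, le_of_lt g3⟩
  · exact ((isOpen_lt continuous_const hA).inter (isOpen_lt continuous_const hB)).inter
      (isOpen_lt (hA.add hB) continuous_const)

theorem int_hex {a u : ℂ} (hu : u ≠ 0) {z : ℂ} (h1 : -1 < A ((z - a) / u)) (h2 : A ((z - a) / u) < 1)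
    (h3 : 0 < B ((z - a) / u)) (h4 : B ((z - a) / u) < 2)
    (h5 : 0 < A ((z - a) / u) + B ((z - a) / u)) (h6 : A ((z - a) / u) + B ((z - a) / u) < 2) :
    z ∈ interior (hex a u) := by
  rw [mem_interior]
  have hA : Continuous fun w => A ((w - a) / u) := A_cont.comp (by fun_prop)
  have hB : Continuous fun w => B ((w - a) / u) := B_cont.comp (by fun_prop)
  refine ⟨{w | -1 < A ((w - a) / u)} ∩ {w | A ((w - a) / u) < 1} ∩ {w | 0 < B ((w - a) / u)} ∩
    {w | B ((w - a) / u) < 2} ∩ {w | 0 < A ((w - a) / u) + B ((w - a) / u)} ∩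
    {w | A ((w - a) / u) + B ((w - a) / u) < 2},
    ?_, ?_, ⟨⟨⟨⟨⟨h1, h2⟩, h3⟩, h4⟩, h5⟩, h6⟩⟩
  · rintro w ⟨⟨⟨⟨⟨g1, g2⟩, g3⟩, g4⟩, g5⟩, g6⟩
    rw [mem_hex hu]
    exact ⟨⟨le_of_lt g1, le_of_lt g2⟩, ⟨le_of_lt g3, le_of_lt g4⟩, ⟨le_of_lt g5, le_of_lt g6⟩⟩
  · exact (((((isOpen_lt continuous_const hA).inter (isOpen_lt hA continuous_const)).inter
      (isOpen_lt continuous_const hB)).inter (isOpen_lt hB continuous_const)).inter
      (isOpen_lt continuous_const (hA.add hB))).inter (isOpen_lt (hA.add hB) continuous_const)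

theorem mid_interior {K T : Set ℂ} (hK : Convex ℝ K) (hT : T ⊆ K) {x y m : ℂ} (hx : x ∈ interior T)
    (hy : y ∈ K) {t : ℝ} (h0 : 0 < t) (h1 : t < 1) (hA : A m = (1 - t) * A x + t * A y)
    (hB : B m = (1 - t) * B x + t * B y) : m ∈ interior K := by
  have h := hK.openSegment_interior_self_subset_interior (interior_mono hT hx) hy
  apply h
  refine ⟨1 - t, t, by linarith, h0, by ring, ?_⟩
  apply ext_AB
  · rw [A_add, A_smul, A_smul, hA]
  · rw [B_add, B_smul, B_smul, hB]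

/-- The end of a side between two hexagons is interior. -/
theorem intA {F : Set (Set ℂ)} (hK : Convex ℝ (⋃₀ F)) {p : ℂ} (h : FH F p) : p + 1 ∈ interior (⋃₀ F) := by
  obtain ⟨h1, h2⟩ := h
  have hy : p + 2 - ζ ∈ ⋃₀ F := by
    refine ⟨_, h2, ?_⟩
    rw [mem_hex neg_one_ne, A_ndiv, B_ndiv, A_odiv, B_odiv]
    have e : p + 2 - ζ - (p + 1) = 1 - ζ := by ring
    rw [e, A_sub, B_sub, A_one, B_one, A_zeta, B_zeta]
    norm_num
  have hx : p + ((1 / 2 : ℝ) : ℂ) * (1 + ζ) ∈ interior (hex p 1) := by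
    have e : p + ((1 / 2 : ℝ) : ℂ) * (1 + ζ) - p = ((1 / 2 : ℝ) : ℂ) * (1 + ζ) := by ring
    apply int_hex one_ne_zero <;> (try rw [A_odiv]) <;> (try rw [B_odiv]) <;>
      rw [e] <;> (try rw [A_mul, A_add, A_one, A_zeta]) <;> (try rw [B_mul, B_add, B_one, B_zeta]) <;> norm_num
  refine mid_interior hK (subset_sUnion_of_mem h1) hx hy (t := 1 / 3) (by norm_num) (by norm_num) ?_ ?_
  · simp only [A_add, A_mul, A_sub, A_one, A_two, A_zeta]; ring
  · simp only [B_add, B_mul, B_sub, B_one, B_two, B_zeta]; ring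

/-- The middle of the right side of a triangle is interior if the next line has two triangles as well. -/
theorem intB {F : Set (Set ℂ)} (hK : Convex ℝ (⋃₀ F)) {p : ℂ} (h : FT F p) (h' : FT F (p + (2 * ζ - 1))) :
    ∃ m ∈ openSegment ℝ (p + 1) (p + 1 + ζ * ζ), m ∈ interior (⋃₀ F) := by
  have hy : p + (2 * ζ - 1) + 1 ∈ ⋃₀ F := ⟨_, h'.1, (tri_corner _ _).2.1⟩
  have hx : p + (((7 / 12 : ℝ) : ℂ) + ((1 / 4 : ℝ) : ℂ) * ζ) ∈ interior (tri p 1) := by
    have e : p + (((7 / 12 : ℝ) : ℂ) + ((1 / 4 : ℝ) : ℂ) * ζ) - p =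
      ((7 / 12 : ℝ) : ℂ) + ((1 / 4 : ℝ) : ℂ) * ζ := by ring
    apply int_tri one_ne_zero <;> (try rw [A_odiv]) <;> (try rw [B_odiv]) <;>
      rw [e] <;> (try rw [A_add, A_mul, A_real, A_zeta]) <;> (try rw [B_add, B_mul, B_real, B_zeta]) <;> norm_num
  refine ⟨p + ((1 / 2 : ℝ) : ℂ) * (1 + ζ), ?_, ?_⟩
  · refine ⟨1 / 2, 1 / 2, by norm_num, by norm_num, by norm_num, ?_⟩
    rw [zeta_sq]
    simp only [Complex.real_smul]
    push_cast
    ring
  · refine mid_interior hK (subset_sUnion_of_mem h.1) hx hy (t := 1 / 7) (by norm_num) (by norm_num) ?_ ?_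
    · rw [two_zeta]
      simp only [A_add, A_mul, A_sub, A_one, A_zeta, A_real]; ring
    · rw [two_zeta]
      simp only [B_add, B_mul, B_sub, B_one, B_zeta, B_real]; ring

theorem intC {F : Set (Set ℂ)} (hK : Convex ℝ (⋃₀ F)) {p : ℂ} (h : FT F p) (h' : hex (p + 1) 1 ∈ F) :
    p + 1 ∈ interior (⋃₀ F) := by
  have hy : p + 1 - ζ ∈ ⋃₀ F := by
    refine ⟨_, h.2, ?_⟩
    have := (tri_corner (p + 1) (-1)).2.2
    have e : p + 1 + ζ * -1 = p + 1 - ζ := by ring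
    rwa [e] at this
  have hx : p + 1 + ((1 / 2 : ℝ) : ℂ) * ζ ∈ interior (hex (p + 1) 1) := by
    have e : p + 1 + ((1 / 2 : ℝ) : ℂ) * ζ - (p + 1) = ((1 / 2 : ℝ) : ℂ) * ζ := by ring
    apply int_hex one_ne_zero <;> (try rw [A_odiv]) <;> (try rw [B_odiv]) <;>
      rw [e] <;> (try rw [A_mul, A_zeta]) <;> (try rw [B_mul, B_zeta]) <;> norm_num
  refine mid_interior hK (subset_sUnion_of_mem h') hx hy (t := 1 / 3) (by norm_num) (by norm_num) ?_ ?_
  · simp only [A_add, A_mul, A_sub, A_one, A_zeta]; ring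
  · simp only [B_add, B_mul, B_sub, B_one, B_zeta]; ring

theorem intD {F : Set (Set ℂ)} (hK : Convex ℝ (⋃₀ F)) {q : ℂ} (h : FT F q) (h' : hex (q + 2) (-1) ∈ F) :
    q + 1 ∈ interior (⋃₀ F) := by
  have hy : q + ζ ∈ ⋃₀ F := by
    refine ⟨_, h.1, ?_⟩
    have := (tri_corner q 1).2.2
    rwa [mul_one] at this
  have hx : q + 1 + ((1 / 2 : ℝ) : ℂ) * (1 - ζ) ∈ interior (hex (q + 2) (-1)) := by
    have e : q + 1 + ((1 / 2 : ℝ) : ℂ) * (1 - ζ) - (q + 2) = ((1 / 2 : ℝ) : ℂ) * (-(1 + ζ)) := by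
      push_cast; ring
    apply int_hex neg_one_ne <;> (try rw [A_ndiv, A_odiv]) <;> (try rw [B_ndiv, B_odiv]) <;>
      rw [e] <;> (try rw [A_mul, A_neg, A_add, A_one, A_zeta]) <;>
      (try rw [B_mul, B_neg, B_add, B_one, B_zeta]) <;> norm_num
  refine mid_interior hK (subset_sUnion_of_mem h') hx hy (t := 1 / 3) (by norm_num) (by norm_num) ?_ ?_
  · simp only [A_add, A_mul, A_sub, A_one, A_zeta]; ring
  · simp only [B_add, B_mul, B_sub, B_one, B_zeta]; ring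

/-- One period of the walk along the two lines. -/
theorem step {F : Set (Set ℂ)} (hF : IsPatch F) (hK : Convex ℝ (⋃₀ F)) {p : ℂ} (h : FH F p)
    (h' : FH F (p + (2 * ζ - 1))) : FH F (p + 2) ∧ FH F (p + 2 + (2 * ζ - 1)) := by
  set q := p + (2 * ζ - 1) with hq
  have t1 := stepA hF h (intA hK h)
  have t2 := stepA hF h' (intA hK h')
  have e1 : p + 1 + (2 * ζ - 1) = q + 1 := by rw [hq]; ring
  obtain ⟨m, hm1, hm2⟩ := intB hK t1 (by rw [e1]; exact t2)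
  have hx := stepB1 hF t1 hm1 hm2
  have e2 : p + 1 + 1 = p + 2 := by ring
  have e3 : q + 1 + 1 = q + 2 := by ring
  have i1 := intC hK t1 hx
  have hx' : hex (q + 1 + 2) (-1) ∈ F := by
    rw [hex_opp one_ne_zero] at hx
    have e : p + 1 + 1 + 2 * ζ * 1 = q + 1 + 2 := by rw [hq]; ring
    rwa [e] at hx
  have i2 := intD hK t2 hx'
  have f1 := stepB hF t1 i1
  have f2 := stepB hF t2 i2
  rw [e2] at f1
  rw [e3] at f2
  refine ⟨f1, ?_⟩
  have e4 : p + 2 + (2 * ζ - 1) = q + 2 := by rw [hq]; ring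
  rw [e4]; exact f2

theorem no_convex {F : Set (Set ℂ)} (hF : IsPatch F) (hK : Convex ℝ (⋃₀ F)) {p : ℂ} (h : FH F p)
    (h' : FH F (p + (2 * ζ - 1))) : False := by
  have key : ∀ n : ℕ, FH F (p + 2 * n) ∧ FH F (p + 2 * n + (2 * ζ - 1)) := by
    intro n
    induction n with
    | zero => simpa using ⟨h, h'⟩
    | succ n ih =>
      have := step hF hK ih.1 ih.2
      have e : p + 2 * ((n + 1 : ℕ) : ℂ) = p + 2 * n + 2 := by push_cast; ring
      rw [e]; exact this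
  have hinj : Function.Injective (fun n : ℕ => hex (p + 2 * n) 1) := by
    have aux : ∀ n m : ℕ, hex (p + 2 * n) 1 = hex (p + 2 * m) 1 → m ≤ n := by
      intro n m he
      have h1 : p + 2 * n ∈ hex (p + 2 * m) 1 := he ▸ (hex_corner _ _).1
      rw [mem_hex one_ne_zero, A_odiv] at h1
      have e : p + 2 * (n : ℂ) - (p + 2 * m) = ((2 * (n : ℝ) - 2 * m : ℝ) : ℂ) := by push_cast; ring
      rw [e, A_real] at h1
      have h2 : (2 * m : ℝ) ≤ 2 * n + 1 := by linarith [h1.1.1]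
      have h3 : 2 * m ≤ 2 * n + 1 := by exact_mod_cast h2
      omega
    intro n m he
    exact le_antisymm (aux m n he.symm) (aux n m he)
  exact (Set.infinite_range_of_injective hinj) (hF.finite.subset (by
    rintro _ ⟨n, rfl⟩
    exact (key n).1.1))

/-! ### The tiling -/

/-- The translations of the tiling. -/
noncomputable def lam (m n : ℤ) : ℂ := 2 * (m : ℂ) + (n : ℂ) * (2 * ζ - 1)

theorem A_int (m : ℤ) (z : ℂ) : A ((m : ℂ) * z) = m * A z := by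
  have := A_mul (m : ℝ) z
  push_cast at this; exact this
theorem B_int (m : ℤ) (z : ℂ) : B ((m : ℂ) * z) = m * B z := by
  have := B_mul (m : ℝ) z
  push_cast at this; exact this

theorem A_lam (m n : ℤ) : A (lam m n) = 2 * m - n := by
  have e : lam m n = (m : ℂ) * 2 + (n : ℂ) * (ζ + ζ - 1) := by unfold lam; ring
  rw [e]
  simp only [A_add, A_int, A_sub, A_two, A_zeta, A_one]; ring
theorem B_lam (m n : ℤ) : B (lam m n) = 2 * n := by
  have e : lam m n = (m : ℂ) * 2 + (n : ℂ) * (ζ + ζ - 1) := by unfold lam; ring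
  rw [e]
  simp only [B_add, B_int, B_sub, B_two, B_zeta, B_one]; ring

/-- The hexagons. -/
noncomputable def Hx (m n : ℤ) : Set ℂ := hex (lam m n) 1
/-- The triangles pointing up. -/
noncomputable def Up (m n : ℤ) : Set ℂ := tri (lam m n + 1) 1
/-- The triangles pointing down. -/
noncomputable def Dn (m n : ℤ) : Set ℂ := tri (lam m n + 1 + 2 * ζ) (-1)

/-- The tiling. -/
def tiling : Set (Set ℂ) := {T | ∃ m n : ℤ, T = Hx m n ∨ T = Up m n ∨ T = Dn m n}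

theorem mem_Hx (m n : ℤ) (z : ℂ) : z ∈ Hx m n ↔
    (2 * (m : ℝ) - n - 1 ≤ A z ∧ A z ≤ 2 * m - n + 1) ∧ (2 * (n : ℝ) ≤ B z ∧ B z ≤ 2 * n + 2) ∧
    (2 * (m : ℝ) + n ≤ A z + B z ∧ A z + B z ≤ 2 * m + n + 2) := by
  unfold Hx
  rw [mem_hex one_ne_zero, A_odiv, B_odiv, A_sub, B_sub, A_lam, B_lam]
  constructor
  · rintro ⟨⟨h1, h2⟩, ⟨h3, h4⟩, ⟨h5, h6⟩⟩
    refine ⟨⟨by linarith, by linarith⟩, ⟨by linarith, by linarith⟩, ⟨by linarith, by linarith⟩⟩
  · rintro ⟨⟨h1, h2⟩, ⟨h3, h4⟩, ⟨h5, h6⟩⟩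
    refine ⟨⟨by linarith, by linarith⟩, ⟨by linarith, by linarith⟩, ⟨by linarith, by linarith⟩⟩

theorem mem_Up (m n : ℤ) (z : ℂ) : z ∈ Up m n ↔
    (2 * (m : ℝ) - n + 1 ≤ A z) ∧ (2 * (n : ℝ) ≤ B z) ∧ (A z + B z ≤ 2 * m + n + 2) := by
  unfold Up
  rw [mem_tri one_ne_zero, A_odiv, B_odiv, A_sub, B_sub, A_add, B_add, A_lam, B_lam, A_one, B_one]
  constructor
  · rintro ⟨h1, h2, h3⟩
    refine ⟨by linarith, by linarith, by linarith⟩
  · rintro ⟨h1, h2, h3⟩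
    refine ⟨by linarith, by linarith, by linarith⟩

theorem mem_Dn (m n : ℤ) (z : ℂ) : z ∈ Dn m n ↔
    (A z ≤ 2 * (m : ℝ) - n + 1) ∧ (B z ≤ 2 * (n : ℝ) + 2) ∧ (2 * m + n + 2 ≤ A z + B z) := by
  unfold Dn
  rw [mem_tri neg_one_ne, A_ndiv, B_ndiv, A_odiv, B_odiv, two_zeta]
  simp only [A_sub, B_sub, A_add, B_add, A_lam, B_lam, A_one, B_one, A_zeta, B_zeta]
  constructor
  · rintro ⟨h1, h2, h3⟩
    refine ⟨by linarith, by linarith, by linarith⟩
  · rintro ⟨h1, h2, h3⟩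
    refine ⟨by linarith, by linarith, by linarith⟩

theorem lam_succ (m n : ℤ) : lam m (n + 1) = lam m n + (2 * ζ - 1) := by unfold lam; push_cast; ring
theorem lam_pred (m n : ℤ) : lam m (n - 1) = lam m n - (2 * ζ - 1) := by unfold lam; push_cast; ring
theorem lam_right (m n : ℤ) : lam (m + 1) n = lam m n + 2 := by unfold lam; push_cast; ring
theorem lam_left (m n : ℤ) : lam (m - 1) n = lam m n - 2 := by unfold lam; push_cast; ring

/-! Different readings of the tiles. -/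

theorem Hx1 (m n : ℤ) : Hx m n = hex (lam m n + 1) ζ := by
  unfold Hx; rw [rot_hex one_ne_zero, mul_one]
theorem Hx2 (m n : ℤ) : Hx m n = hex (lam m n + 1 + ζ) (ζ * ζ) := by
  rw [Hx1, rot_hex zeta_ne]
theorem Hx3 (m n : ℤ) : Hx m n = hex (lam m n + 2 * ζ) (-1) := by
  unfold Hx; rw [hex_opp one_ne_zero, mul_one]
theorem Hx4 (m n : ℤ) : Hx m n = hex (lam m n + 2 * ζ - 1) (-ζ) := by
  rw [Hx3, rot_hex neg_one_ne]; congr 1 <;> ring
theorem Hx5 (m n : ℤ) : Hx m n = hex (lam m n + ζ - 1) (-(ζ * ζ)) := by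
  rw [Hx4, rot_hex (neg_ne_zero.2 zeta_ne)]; congr 1 <;> ring

theorem Up0 (m n : ℤ) : Up m n = tri (lam m n + 1) 1 := rfl
theorem Up1 (m n : ℤ) : Up m n = tri (lam m n + 2) (ζ * ζ) := by
  unfold Up; rw [rot_tri one_ne_zero, mul_one]; congr 1; ring
theorem Up2 (m n : ℤ) : Up m n = tri (lam m n + 1 + ζ) (-ζ) := by
  rw [Up1, rot_tri zz_ne]; congr 1
  · linear_combination zeta_sq
  · linear_combination ζ * zeta3
theorem Dn1 (m n : ℤ) : Dn m n = tri (lam m n + 2 * ζ) (-(ζ * ζ)) := by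
  unfold Dn; rw [rot_tri neg_one_ne]; congr 1 <;> ring
theorem Dn2 (m n : ℤ) : Dn m n = tri (lam m n + 1 + ζ) ζ := by
  rw [Dn1, rot_tri (neg_ne_zero.2 zz_ne)]; congr 1
  · linear_combination -zeta_sq
  · linear_combination (-ζ) * zeta3

theorem HH (m n m' n' : ℤ) (hne : Hx m n ≠ Hx m' n') : Meets (Hx m n) (Hx m' n') := by
  by_cases he : Hx m n ∩ Hx m' n' = ∅
  · exact Or.inl he
  obtain ⟨z, h1, h2⟩ := nonempty_iff_ne_empty.2 he
  rw [mem_Hx] at h1 h2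
  obtain ⟨⟨a1, a2⟩, ⟨a3, a4⟩, ⟨a5, a6⟩⟩ := h1
  obtain ⟨⟨b1, b2⟩, ⟨b3, b4⟩, ⟨b5, b6⟩⟩ := h2
  have c1 : (2 * m - n - 1 : ℤ) ≤ 2 * m' - n' + 1 := by exact_mod_cast a1.trans b2
  have c2 : (2 * m' - n' - 1 : ℤ) ≤ 2 * m - n + 1 := by exact_mod_cast b1.trans a2
  have c3 : (2 * n : ℤ) ≤ 2 * n' + 2 := by exact_mod_cast a3.trans b4
  have c4 : (2 * n' : ℤ) ≤ 2 * n + 2 := by exact_mod_cast b3.trans a4
  have c5 : (2 * m + n : ℤ) ≤ 2 * m' + n' + 2 := by exact_mod_cast a5.trans b6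
  have c6 : (2 * m' + n' : ℤ) ≤ 2 * m + n + 2 := by exact_mod_cast b5.trans a6
  have vert : ∀ m n : ℤ, Meets (Hx m n) (Hx m (n + 1)) := by
    intro m n
    apply Meets.symm
    refine meets_side (a := lam m (n + 1)) (u := 1) norm_one' (Or.inr rfl) (Or.inr ?_)
    rw [Hx3, lam_succ]; congr 1; ring
  have horiz : ∀ m n : ℤ, Meets (Hx m n) (Hx (m + 1) n) := by
    intro m n
    refine meets_corner (v := lam m n + 1 + ζ) (u := ζ * ζ) norm_zz (Or.inr (Hx2 m n)) (Or.inr ?_)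
    rw [Hx5, lam_right]; congr 1; ring
  have cases : (m' = m ∧ n' = n) ∨ (m' = m ∧ n' = n + 1) ∨ (m' = m ∧ n = n' + 1) ∨ (m' = m + 1 ∧ n' = n) ∨
      (m = m' + 1 ∧ n' = n) := by omega
  rcases cases with ⟨rfl, rfl⟩ | ⟨rfl, rfl⟩ | ⟨rfl, rfl⟩ | ⟨rfl, rfl⟩ | ⟨rfl, rfl⟩
  · exact absurd rfl hne
  · exact vert _ _
  · exact (vert _ _).symm
  · exact horiz _ _
  · exact (horiz _ _).symm

theorem HU (m n m' n' : ℤ) : Meets (Hx m n) (Up m' n') := by
  by_cases he : Hx m n ∩ Up m' n' = ∅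
  · exact Or.inl he
  obtain ⟨z, h1, h2⟩ := nonempty_iff_ne_empty.2 he
  rw [mem_Hx] at h1
  rw [mem_Up] at h2
  obtain ⟨⟨a1, a2⟩, ⟨a3, a4⟩, ⟨a5, a6⟩⟩ := h1
  obtain ⟨b1, b2, b3⟩ := h2
  have c1 : (2 * m' - n' + 1 : ℤ) ≤ 2 * m - n + 1 := by exact_mod_cast b1.trans a2
  have c2 : (2 * n' : ℤ) ≤ 2 * n + 2 := by exact_mod_cast b2.trans a4
  have c3 : (2 * m + n : ℤ) ≤ 2 * m' + n' + 2 := by exact_mod_cast a5.trans b3
  have c4 : (2 * m - n - 1 : ℤ) ≤ 2 * m' - n' + 2 := by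
    have : A z ≤ 2 * m' - n' + 2 := by linarith
    exact_mod_cast a1.trans this
  have c5 : (2 * n : ℤ) ≤ 2 * n' + 1 := by
    have : B z ≤ 2 * n' + 1 := by linarith
    exact_mod_cast a3.trans this
  have c6 : (2 * m' + n' + 1 : ℤ) ≤ 2 * m + n + 2 := by
    have : (2 * (m' : ℝ) + n' + 1) ≤ A z + B z := by linarith
    exact_mod_cast this.trans a6
  have cases : (m' = m ∧ n' = n) ∨ (m' = m - 1 ∧ n' = n) ∨ (m' = m ∧ n' = n + 1) ∨
      (m' = m - 1 ∧ n' = n + 1) := by omega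
  rcases cases with ⟨rfl, rfl⟩ | ⟨rfl, rfl⟩ | ⟨rfl, rfl⟩ | ⟨rfl, rfl⟩
  · exact meets_side (a := lam m' n' + 1) (u := ζ) zeta_norm (Or.inr (Hx1 _ _)) (Or.inl (Up2 _ _))
  · refine meets_side (a := lam m n' + ζ - 1) (u := -(ζ * ζ)) (by rw [norm_neg]; exact norm_zz)
      (Or.inr (Hx5 _ _)) (Or.inl ?_)
    rw [Up1, lam_left]; congr 1
    · linear_combination zeta_sq
    · ring
  · refine meets_corner (v := lam m' n + 2 * ζ) (u := -1) norm_neg_one (Or.inr (Hx3 _ _)) (Or.inl ?_)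
    rw [Up0, lam_succ]; congr 1 <;> ring
  · have h := meets_corner' (S := Hx m n) (v := lam m n + 2 * ζ - 1) (u := -ζ)
      (by rw [norm_neg]; exact zeta_norm) (Or.inr (Hx4 _ _))
    have e : Up (m - 1) (n + 1) = tri (lam m n + 2 * ζ - 1) (-(ζ * -ζ)) := by
      rw [Up1, lam_succ, lam_left]; congr 1 <;> ring
    rw [e]; exact h

theorem HD (m n m' n' : ℤ) : Meets (Hx m n) (Dn m' n') := by
  by_cases he : Hx m n ∩ Dn m' n' = ∅
  · exact Or.inl he
  obtain ⟨z, h1, h2⟩ := nonempty_iff_ne_empty.2 he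
  rw [mem_Hx] at h1
  rw [mem_Dn] at h2
  obtain ⟨⟨a1, a2⟩, ⟨a3, a4⟩, ⟨a5, a6⟩⟩ := h1
  obtain ⟨b1, b2, b3⟩ := h2
  have c1 : (2 * m - n - 1 : ℤ) ≤ 2 * m' - n' + 1 := by exact_mod_cast a1.trans b1
  have c2 : (2 * n : ℤ) ≤ 2 * n' + 2 := by exact_mod_cast a3.trans b2
  have c3 : (2 * m' + n' + 2 : ℤ) ≤ 2 * m + n + 2 := by exact_mod_cast b3.trans a6
  have c4 : (2 * m' - n' : ℤ) ≤ 2 * m - n + 1 := by
    have : (2 * (m' : ℝ) - n') ≤ A z := by linarith
    exact_mod_cast this.trans a2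
  have c5 : (2 * n' + 1 : ℤ) ≤ 2 * n + 2 := by
    have : (2 * (n' : ℝ) + 1) ≤ B z := by linarith
    exact_mod_cast this.trans a4
  have c6 : (2 * m + n : ℤ) ≤ 2 * m' + n' + 3 := by
    have : A z + B z ≤ (2 * (m' : ℝ) + n' + 3) := by linarith
    exact_mod_cast a5.trans this
  have cases : (m' = m ∧ n' = n) ∨ (m' = m - 1 ∧ n' = n) ∨ (m' = m ∧ n' = n - 1) ∨
      (m' = m - 1 ∧ n' = n - 1) := by omega
  rcases cases with ⟨rfl, rfl⟩ | ⟨rfl, rfl⟩ | ⟨rfl, rfl⟩ | ⟨rfl, rfl⟩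
  · refine meets_side (a := lam m' n' + 1 + ζ) (u := ζ * ζ) norm_zz (Or.inr (Hx2 _ _)) (Or.inl ?_)
    rw [Dn1]; congr 1; linear_combination -zeta_sq
  · refine meets_side (a := lam m n' + 2 * ζ - 1) (u := -ζ) (by rw [norm_neg]; exact zeta_norm)
      (Or.inr (Hx4 _ _)) (Or.inl ?_)
    rw [Dn2, lam_left]; congr 1 <;> ring
  · have h := meets_corner' (S := Hx m' n) (v := lam m' n + 1) (u := ζ) zeta_norm (Or.inr (Hx1 _ _))
    have e : Dn m' (n - 1) = tri (lam m' n + 1) (-(ζ * ζ)) := by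
      rw [Dn1, lam_pred]; congr 1; ring
    rw [e]; exact h
  · refine meets_corner (v := lam m n) (u := 1) norm_one' (Or.inr rfl) (Or.inl ?_)
    unfold Dn
    rw [lam_pred, lam_left]; congr 1; ring

theorem UU (m n m' n' : ℤ) (hne : Up m n ≠ Up m' n') : Meets (Up m n) (Up m' n') := by
  by_cases he : Up m n ∩ Up m' n' = ∅
  · exact Or.inl he
  exfalso
  obtain ⟨z, h1, h2⟩ := nonempty_iff_ne_empty.2 he
  rw [mem_Up] at h1 h2
  obtain ⟨a1, a2, a3⟩ := h1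
  obtain ⟨b1, b2, b3⟩ := h2
  have c1 : (2 * m - n + 1 : ℤ) ≤ 2 * m' - n' + 2 := by
    have : A z ≤ 2 * m' - n' + 2 := by linarith
    exact_mod_cast a1.trans this
  have c2 : (2 * m' - n' + 1 : ℤ) ≤ 2 * m - n + 2 := by
    have : A z ≤ 2 * m - n + 2 := by linarith
    exact_mod_cast b1.trans this
  have c3 : (2 * n : ℤ) ≤ 2 * n' + 1 := by
    have : B z ≤ 2 * n' + 1 := by linarith
    exact_mod_cast a2.trans this
  have c4 : (2 * n' : ℤ) ≤ 2 * n + 1 := by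
    have : B z ≤ 2 * n + 1 := by linarith
    exact_mod_cast b2.trans this
  have e1 : n = n' := by omega
  have e2 : m = m' := by omega
  exact hne (by rw [e1, e2])

theorem DD (m n m' n' : ℤ) (hne : Dn m n ≠ Dn m' n') : Meets (Dn m n) (Dn m' n') := by
  by_cases he : Dn m n ∩ Dn m' n' = ∅
  · exact Or.inl he
  exfalso
  obtain ⟨z, h1, h2⟩ := nonempty_iff_ne_empty.2 he
  rw [mem_Dn] at h1 h2
  obtain ⟨a1, a2, a3⟩ := h1
  obtain ⟨b1, b2, b3⟩ := h2
  have c1 : (2 * m - n : ℤ) ≤ 2 * m' - n' + 1 := by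
    have : 2 * (m : ℝ) - n ≤ A z := by linarith
    exact_mod_cast this.trans b1
  have c2 : (2 * m' - n' : ℤ) ≤ 2 * m - n + 1 := by
    have : 2 * (m' : ℝ) - n' ≤ A z := by linarith
    exact_mod_cast this.trans a1
  have c3 : (2 * n + 1 : ℤ) ≤ 2 * n' + 2 := by
    have : 2 * (n : ℝ) + 1 ≤ B z := by linarith
    exact_mod_cast this.trans b2
  have c4 : (2 * n' + 1 : ℤ) ≤ 2 * n + 2 := by
    have : 2 * (n' : ℝ) + 1 ≤ B z := by linarith
    exact_mod_cast this.trans a2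
  have e1 : n = n' := by omega
  have e2 : m = m' := by omega
  exact hne (by rw [e1, e2])

theorem UD (m n m' n' : ℤ) : Meets (Up m n) (Dn m' n') := by
  by_cases he : Up m n ∩ Dn m' n' = ∅
  · exact Or.inl he
  obtain ⟨z, h1, h2⟩ := nonempty_iff_ne_empty.2 he
  rw [mem_Up] at h1
  rw [mem_Dn] at h2
  obtain ⟨a1, a2, a3⟩ := h1
  obtain ⟨b1, b2, b3⟩ := h2
  have c1 : (2 * m - n + 1 : ℤ) ≤ 2 * m' - n' + 1 := by exact_mod_cast a1.trans b1
  have c2 : (2 * n : ℤ) ≤ 2 * n' + 2 := by exact_mod_cast a2.trans b2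
  have c3 : (2 * m' + n' + 2 : ℤ) ≤ 2 * m + n + 2 := by exact_mod_cast b3.trans a3
  have c4 : (2 * n' + 1 : ℤ) ≤ 2 * n + 1 := by
    have g1 : 2 * (n' : ℝ) + 1 ≤ B z := by linarith
    have g2 : B z ≤ 2 * n + 1 := by linarith
    exact_mod_cast g1.trans g2
  have c5 : (2 * m' - n' : ℤ) ≤ 2 * m - n + 2 := by
    have g1 : 2 * (m' : ℝ) - n' ≤ A z := by linarith
    have g2 : A z ≤ 2 * m - n + 2 := by linarith
    exact_mod_cast g1.trans g2
  have cases : (m' = m ∧ n' = n) ∨ (m' = m ∧ n' = n - 1) := by omega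
  rcases cases with ⟨rfl, rfl⟩ | ⟨rfl, rfl⟩
  · have h := Dn2 m' n'
    refine (meets_corner (v := lam m' n' + 1 + ζ) (u := ζ) zeta_norm (Or.inl h) (Or.inl (Up2 m' n'))).symm
  · refine meets_side (a := lam m' n + 1) (u := 1) norm_one' (Or.inl rfl) (Or.inl ?_)
    unfold Dn
    rw [lam_pred]; congr 1; ring

theorem tiling_meets : ∀ S ∈ tiling, ∀ T ∈ tiling, S ≠ T → Meets S T := by
  rintro S ⟨m, n, rfl | rfl | rfl⟩ T ⟨m', n', rfl | rfl | rfl⟩ hne
  · exact HH _ _ _ _ hne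
  · exact HU _ _ _ _
  · exact HD _ _ _ _
  · exact (HU _ _ _ _).symm
  · exact UU _ _ _ _ hne
  · exact UD _ _ _ _
  · exact (HD _ _ _ _).symm
  · exact (UD _ _ _ _).symm
  · exact DD _ _ _ _ hne

theorem tiling_arr : IsArrangement tiling where
  tiles := by
    rintro T ⟨m, n, rfl | rfl | rfl⟩
    · exact Or.inr (isHex_of norm_one')
    · exact Or.inl (isTri_of norm_one')
    · exact Or.inl (isTri_of norm_neg_one)
  area := fun S hS T hT hne => (tiling_meets S hS T hT hne).volume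
  edge := tiling_meets

theorem tiling_cover : ⋃₀ tiling = univ := by
  rw [eq_univ_iff_forall]
  intro z
  set n := ⌊B z / 2⌋ with hn
  have n1 : (n : ℝ) ≤ B z / 2 := Int.floor_le _
  have n2 : B z / 2 < n + 1 := Int.lt_floor_add_one _
  set p := ⌊(A z + n + 1) / 2⌋ with hp
  have p1 : (p : ℝ) ≤ (A z + n + 1) / 2 := Int.floor_le _
  have p2 : (A z + n + 1) / 2 < p + 1 := Int.lt_floor_add_one _
  rcases lt_or_ge (A z + B z) (2 * p + n) with h | h
  · refine ⟨Up (p - 1) n, ⟨p - 1, n, Or.inr (Or.inl rfl)⟩, ?_⟩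
    rw [mem_Up]
    push_cast
    refine ⟨by linarith, by linarith, by linarith⟩
  · rcases lt_or_ge (2 * (p : ℝ) + n + 2) (A z + B z) with h' | h'
    · refine ⟨Dn p n, ⟨p, n, Or.inr (Or.inr rfl)⟩, ?_⟩
      rw [mem_Dn]
      refine ⟨by linarith, by linarith, by linarith⟩
    · refine ⟨Hx p n, ⟨p, n, Or.inl rfl⟩, ?_⟩
      rw [mem_Hx]
      refine ⟨⟨by linarith, by linarith⟩, ⟨by linarith, by linarith⟩, ⟨by linarith, by linarith⟩⟩

/-- The corners of the tiling. -/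
theorem corner_cases {T : Set ℂ} (hT : T ∈ tiling) {v : ℂ} (hv : IsCorner T v) :
    ∃ m n : ℤ, v = lam m n ∨ v = lam m n + 1 ∨ v = lam m n + 1 + ζ := by
  obtain ⟨m, n, rfl | rfl | rfl⟩ := hT
  · rcases corner_hex hv with rfl | rfl | rfl | rfl | rfl | rfl
    · exact ⟨m, n, Or.inl rfl⟩
    · exact ⟨m, n, Or.inr (Or.inl rfl)⟩
    · exact ⟨m, n, Or.inr (Or.inr (by ring))⟩
    · exact ⟨m, n + 1, Or.inr (Or.inl (by rw [lam_succ]; ring))⟩
    · exact ⟨m, n + 1, Or.inl (by rw [lam_succ]; ring)⟩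
    · exact ⟨m - 1, n, Or.inr (Or.inr (by rw [lam_left]; ring))⟩
  · rcases corner_tri hv with rfl | rfl | rfl
    · exact ⟨m, n, Or.inr (Or.inl rfl)⟩
    · exact ⟨m + 1, n, Or.inl (by rw [lam_right]; ring)⟩
    · exact ⟨m, n, Or.inr (Or.inr (by ring))⟩
  · rcases corner_tri hv with rfl | rfl | rfl
    · exact ⟨m + 1, n + 1, Or.inl (by rw [lam_succ, lam_right]; ring)⟩
    · exact ⟨m, n + 1, Or.inr (Or.inl (by rw [lam_succ]; ring))⟩
    · exact ⟨m, n, Or.inr (Or.inr (by ring))⟩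

theorem Hx_inj {m n m' n' : ℤ} (h : Hx m n = Hx m' n') : m = m' ∧ n = n' := by
  have h1 : lam m n ∈ Hx m' n' := by rw [← h]; exact (hex_corner _ _).1
  have h2 : lam m' n' ∈ Hx m n := by rw [h]; exact (hex_corner _ _).1
  rw [mem_Hx, A_lam, B_lam] at h1 h2
  obtain ⟨⟨a1, a2⟩, ⟨a3, a4⟩, ⟨a5, a6⟩⟩ := h1
  obtain ⟨⟨b1, b2⟩, ⟨b3, b4⟩, ⟨b5, b6⟩⟩ := h2
  have c3 : (2 * n' : ℤ) ≤ 2 * n := by exact_mod_cast a3
  have c4 : (2 * n : ℤ) ≤ 2 * n' := by exact_mod_cast b3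
  have c1 : (2 * m' - n' - 1 : ℤ) ≤ 2 * m - n := by exact_mod_cast a1
  have c2 : (2 * m - n - 1 : ℤ) ≤ 2 * m' - n' := by exact_mod_cast b1
  constructor <;> omega

theorem Up_ne_Dn (m n m' n' : ℤ) : Up m n ≠ Dn m' n' := by
  intro h
  have h1 : lam m n + 1 ∈ Dn m' n' := by rw [← h]; exact (tri_corner _ _).1
  have h2 : lam m n + 1 + 1 ∈ Dn m' n' := by rw [← h]; exact (tri_corner _ _).2.1
  have h3 : lam m n + 1 + ζ * 1 ∈ Dn m' n' := by rw [← h]; exact (tri_corner _ _).2.2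
  rw [mul_one] at h3
  rw [mem_Dn] at h1 h2 h3
  simp only [A_add, B_add, A_lam, B_lam, A_one, B_one, A_zeta, B_zeta] at h1 h2 h3
  linarith [h1.1, h1.2.1, h1.2.2, h2.1, h2.2.1, h2.2.2, h3.1, h3.2.1, h3.2.2]

theorem hexes_at {v : ℂ} {m₁ n₁ m₂ n₂ : ℤ} (hne : m₁ ≠ m₂ ∨ n₁ ≠ n₂)
    (h : ∀ m n : ℤ, v ∈ Hx m n ↔ (m = m₁ ∧ n = n₁) ∨ (m = m₂ ∧ n = n₂)) :
    {T | T ∈ tiling ∧ IsHex T ∧ v ∈ T}.encard = 2 := by
  have e : {T | T ∈ tiling ∧ IsHex T ∧ v ∈ T} = {Hx m₁ n₁, Hx m₂ n₂} := by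
    ext T
    constructor
    · rintro ⟨⟨m, n, rfl | rfl | rfl⟩, h2, h3⟩
      · rcases (h m n).1 h3 with ⟨rfl, rfl⟩ | ⟨rfl, rfl⟩
        · left; rfl
        · right; rfl
      · exact absurd h2 (tri_not_hex norm_one')
      · exact absurd h2 (tri_not_hex norm_neg_one)
    · rintro (rfl | rfl)
      · exact ⟨⟨_, _, Or.inl rfl⟩, isHex_of norm_one', (h _ _).2 (Or.inl ⟨rfl, rfl⟩)⟩
      · exact ⟨⟨_, _, Or.inl rfl⟩, isHex_of norm_one', (h _ _).2 (Or.inr ⟨rfl, rfl⟩)⟩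
  rw [e, encard_pair]
  intro he
  obtain ⟨h1, h2⟩ := Hx_inj he
  rcases hne with h3 | h3
  · exact h3 h1
  · exact h3 h2

theorem tris_at {v : ℂ} {m₁ n₁ m₂ n₂ : ℤ} (h : ∀ m n : ℤ, v ∈ Up m n ↔ (m = m₁ ∧ n = n₁))
    (h' : ∀ m n : ℤ, v ∈ Dn m n ↔ (m = m₂ ∧ n = n₂)) :
    {T | T ∈ tiling ∧ IsTri T ∧ v ∈ T}.encard = 2 := by
  have e : {T | T ∈ tiling ∧ IsTri T ∧ v ∈ T} = {Up m₁ n₁, Dn m₂ n₂} := by
    ext T
    constructor
    · rintro ⟨⟨m, n, rfl | rfl | rfl⟩, h2, h3⟩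
      · exact absurd h2 (hex_not_tri norm_one')
      · obtain ⟨rfl, rfl⟩ := (h m n).1 h3
        left; rfl
      · obtain ⟨rfl, rfl⟩ := (h' m n).1 h3
        right; rfl
    · rintro (rfl | rfl)
      · exact ⟨⟨_, _, Or.inr (Or.inl rfl)⟩, isTri_of norm_one', (h _ _).2 ⟨rfl, rfl⟩⟩
      · exact ⟨⟨_, _, Or.inr (Or.inr rfl)⟩, isTri_of norm_neg_one, (h' _ _).2 ⟨rfl, rfl⟩⟩
  rw [e, encard_pair (Up_ne_Dn _ _ _ _)]

/-- A lattice point in a tile, in integers. -/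
theorem int_Hx {v : ℂ} {a b : ℤ} (ha : A v = a) (hb : B v = b) (m n : ℤ) : v ∈ Hx m n ↔
    (2 * m - n - 1 ≤ a ∧ a ≤ 2 * m - n + 1) ∧ (2 * n ≤ b ∧ b ≤ 2 * n + 2) ∧
    (2 * m + n ≤ a + b ∧ a + b ≤ 2 * m + n + 2) := by
  rw [mem_Hx, ha, hb]
  constructor
  · rintro ⟨⟨h1, h2⟩, ⟨h3, h4⟩, ⟨h5, h6⟩⟩
    refine ⟨⟨by exact_mod_cast h1, by exact_mod_cast h2⟩, ⟨by exact_mod_cast h3, by exact_mod_cast h4⟩,
      ⟨by exact_mod_cast h5, by exact_mod_cast h6⟩⟩
  · rintro ⟨⟨h1, h2⟩, ⟨h3, h4⟩, ⟨h5, h6⟩⟩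
    refine ⟨⟨by exact_mod_cast h1, by exact_mod_cast h2⟩, ⟨by exact_mod_cast h3, by exact_mod_cast h4⟩,
      ⟨by exact_mod_cast h5, by exact_mod_cast h6⟩⟩

theorem int_Up {v : ℂ} {a b : ℤ} (ha : A v = a) (hb : B v = b) (m n : ℤ) : v ∈ Up m n ↔
    (2 * m - n + 1 ≤ a) ∧ (2 * n ≤ b) ∧ (a + b ≤ 2 * m + n + 2) := by
  rw [mem_Up, ha, hb]
  constructor
  · rintro ⟨h1, h2, h3⟩
    refine ⟨by exact_mod_cast h1, by exact_mod_cast h2, by exact_mod_cast h3⟩
  · rintro ⟨h1, h2, h3⟩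
    refine ⟨by exact_mod_cast h1, by exact_mod_cast h2, by exact_mod_cast h3⟩

theorem int_Dn {v : ℂ} {a b : ℤ} (ha : A v = a) (hb : B v = b) (m n : ℤ) : v ∈ Dn m n ↔
    (a ≤ 2 * m - n + 1) ∧ (b ≤ 2 * n + 2) ∧ (2 * m + n + 2 ≤ a + b) := by
  rw [mem_Dn, ha, hb]
  constructor
  · rintro ⟨h1, h2, h3⟩
    refine ⟨by exact_mod_cast h1, by exact_mod_cast h2, by exact_mod_cast h3⟩
  · rintro ⟨h1, h2, h3⟩
    refine ⟨by exact_mod_cast h1, by exact_mod_cast h2, by exact_mod_cast h3⟩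

theorem tiling_vertex {v : ℂ} (hv : ∃ T ∈ tiling, IsCorner T v) :
    {T | T ∈ tiling ∧ IsTri T ∧ v ∈ T}.encard = 2 ∧ {T | T ∈ tiling ∧ IsHex T ∧ v ∈ T}.encard = 2 := by
  obtain ⟨T, hT, hc⟩ := hv
  obtain ⟨m, n, rfl | rfl | rfl⟩ := corner_cases hT hc
  · have ha : A (lam m n) = ((2 * m - n : ℤ) : ℝ) := by rw [A_lam]; push_cast; ring
    have hb : B (lam m n) = ((2 * n : ℤ) : ℝ) := by rw [B_lam]; push_cast; ring
    constructor
    · apply tris_at (m₁ := m - 1) (n₁ := n) (m₂ := m - 1) (n₂ := n - 1)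
      · intro m' n'; rw [int_Up ha hb]; omega
      · intro m' n'; rw [int_Dn ha hb]; omega
    · apply hexes_at (m₁ := m) (n₁ := n) (m₂ := m) (n₂ := n - 1) (by omega)
      intro m' n'; rw [int_Hx ha hb]; omega
  · have ha : A (lam m n + 1) = ((2 * m - n + 1 : ℤ) : ℝ) := by rw [A_add, A_lam, A_one]; push_cast; ring
    have hb : B (lam m n + 1) = ((2 * n : ℤ) : ℝ) := by rw [B_add, B_lam, B_one]; push_cast; ring
    constructor
    · apply tris_at (m₁ := m) (n₁ := n) (m₂ := m) (n₂ := n - 1)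
      · intro m' n'; rw [int_Up ha hb]; omega
      · intro m' n'; rw [int_Dn ha hb]; omega
    · apply hexes_at (m₁ := m) (n₁ := n) (m₂ := m) (n₂ := n - 1) (by omega)
      intro m' n'; rw [int_Hx ha hb]; omega
  · have ha : A (lam m n + 1 + ζ) = ((2 * m - n + 1 : ℤ) : ℝ) := by
      rw [A_add, A_add, A_lam, A_one, A_zeta]; push_cast; ring
    have hb : B (lam m n + 1 + ζ) = ((2 * n + 1 : ℤ) : ℝ) := by
      rw [B_add, B_add, B_lam, B_one, B_zeta]; push_cast; ring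
    constructor
    · apply tris_at (m₁ := m) (n₁ := n) (m₂ := m) (n₂ := n)
      · intro m' n'; rw [int_Up ha hb]; omega
      · intro m' n'; rw [int_Dn ha hb]; omega
    · apply hexes_at (m₁ := m) (n₁ := n) (m₂ := m + 1) (n₂ := n) (by omega)
      intro m' n'; rw [int_Hx ha hb]; omega

theorem isTiling : IsTiling tiling where
  arr := tiling_arr
  cover := tiling_cover
  vertex := fun _ hv => tiling_vertex hv

/-! ### Three hexagons in a row -/

/-- The patch of three hexagons. -/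
def row : Set (Set ℂ) := {Hx 0 (-1), Hx 0 0, Hx 0 1}

theorem row_sub : row ⊆ tiling := by
  rintro T (rfl | rfl | rfl)
  · exact ⟨0, -1, Or.inl rfl⟩
  · exact ⟨0, 0, Or.inl rfl⟩
  · exact ⟨0, 1, Or.inl rfl⟩

theorem AB_convex (a a' c c' : ℝ) : Convex ℝ {z : ℂ | (a ≤ A z ∧ A z ≤ a') ∧ (c ≤ A z + B z ∧ A z + B z ≤ c')} := by
  have e : {z : ℂ | (a ≤ A z ∧ A z ≤ a') ∧ (c ≤ A z + B z ∧ A z + B z ≤ c')} =
      {w | a ≤ A w} ∩ {w | -a' ≤ -A w} ∩ {w | c ≤ A w + B w} ∩ {w | -c' ≤ -(A w + B w)} := by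
    ext w; simp only [mem_ofPred_eq, mem_inter_iff]
    constructor
    · rintro ⟨⟨h1, h2⟩, ⟨h5, h6⟩⟩
      exact ⟨⟨⟨h1, by linarith⟩, h5⟩, by linarith⟩
    · rintro ⟨⟨⟨h1, h2⟩, h5⟩, h6⟩
      exact ⟨⟨h1, by linarith⟩, ⟨h5, by linarith⟩⟩
  rw [e]
  refine (((half_convex A A_add A_smul a).inter (half_convex (fun w => -A w) ?_ ?_ (-a'))).inter
    (half_convex (fun w => A w + B w) ?_ ?_ c)).inter (half_convex (fun w => -(A w + B w)) ?_ ?_ (-c'))
  · intro z w; simp only [A_add]; ring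
  · intro c z; simp only [A_smul]; ring
  · intro z w; simp only [A_add, B_add]; ring
  · intro c z; simp only [A_smul, B_smul]; ring
  · intro z w; simp only [A_add, B_add]; ring
  · intro c z; simp only [A_smul, B_smul]; ring

theorem std_facts {T : Set ℂ} {a u : ℂ} (hu : u ≠ 0) (h : Std T a u) :
    IsCompact T ∧ Convex ℝ T ∧ (interior T).Nonempty := by
  refine ⟨h.compact, h.convex, ?_⟩
  have hsub : tri a u ⊆ T := by
    rcases h with rfl | rfl
    · exact Subset.rfl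
    · exact tri_sub_hex hu
  refine ⟨a + ((1 / 4 : ℝ) : ℂ) * (1 + ζ) * u, interior_mono hsub ?_⟩
  have e : (a + ((1 / 4 : ℝ) : ℂ) * (1 + ζ) * u - a) / u = ((1 / 4 : ℝ) : ℂ) * (1 + ζ) := by
    field_simp; ring
  apply int_tri hu <;> rw [e] <;> (try rw [A_mul, A_add, A_one, A_zeta]) <;>
    (try rw [B_mul, B_add, B_one, B_zeta]) <;> norm_num

theorem not_int {T : Set ℂ} {a u : ℂ} (hu : u ≠ 0) (h : Std T a u) {z : ℂ} (hz : z ∈ T)
    (hB : B ((z - a) / u) = 0) : z ∈ frontier T := by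
  rw [h.compact.isClosed.frontier_eq]
  refine ⟨hz, fun hi => ?_⟩
  obtain ⟨t, ht, hz⟩ := exists_move hi (-(ζ * u))
  have := h.B_nonneg hu hz
  have e : (z + t * -(ζ * u) - a) / u = (z - a) / u - ((t : ℝ) : ℂ) * ζ := by field_simp; ring
  rw [e, B_sub, B_mul, B_zeta, hB] at this
  linarith

/-- The rhombus circumscribed to the middle hexagon. -/
def rhombus : Set ℂ := {z : ℂ | ((-1 : ℝ) ≤ A z ∧ A z ≤ 1) ∧ ((0 : ℝ) ≤ A z + B z ∧ A z + B z ≤ 2)}

theorem mem_top (z : ℂ) : z ∈ tri (2 * ζ - 1) 1 ↔ -1 ≤ A z ∧ 2 ≤ B z ∧ A z + B z ≤ 2 := by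
  rw [mem_tri one_ne_zero, A_odiv, B_odiv, two_zeta]
  simp only [A_sub, B_sub, A_add, B_add, A_one, B_one, A_zeta, B_zeta]
  constructor
  · rintro ⟨h1, h2, h3⟩
    refine ⟨by linarith, by linarith, by linarith⟩
  · rintro ⟨h1, h2, h3⟩
    refine ⟨by linarith, by linarith, by linarith⟩

theorem mem_bot (z : ℂ) : z ∈ tri 1 (-1) ↔ A z ≤ 1 ∧ B z ≤ 0 ∧ 0 ≤ A z + B z := by
  rw [mem_tri neg_one_ne, A_ndiv, B_ndiv, A_odiv, B_odiv]
  simp only [A_sub, B_sub, A_one, B_one]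
  constructor
  · rintro ⟨h1, h2, h3⟩
    refine ⟨by linarith, by linarith, by linarith⟩
  · rintro ⟨h1, h2, h3⟩
    refine ⟨by linarith, by linarith, by linarith⟩

theorem rhombus_eq : (Hx 0 0 ∪ tri 1 (-1)) ∪ tri (2 * ζ - 1) 1 = rhombus := by
  ext z
  simp only [mem_union, mem_Hx, mem_top, mem_bot, rhombus, mem_ofPred_eq]
  push_cast
  constructor
  · rintro ((⟨⟨h1, h2⟩, ⟨h3, h4⟩, ⟨h5, h6⟩⟩ | ⟨h1, h2, h3⟩) | ⟨h1, h2, h3⟩)
    · exact ⟨⟨by linarith, by linarith⟩, ⟨by linarith, by linarith⟩⟩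
    · exact ⟨⟨by linarith, by linarith⟩, ⟨by linarith, by linarith⟩⟩
    · exact ⟨⟨by linarith, by linarith⟩, ⟨by linarith, by linarith⟩⟩
  · rintro ⟨⟨h1, h2⟩, ⟨h3, h4⟩⟩
    rcases le_total (B z) 0 with h | h
    · left; right; exact ⟨by linarith, by linarith, by linarith⟩
    · rcases le_total (B z) 2 with h' | h'
      · left; left; exact ⟨⟨by linarith, by linarith⟩, ⟨by linarith, by linarith⟩, ⟨by linarith, by linarith⟩⟩
      · right; exact ⟨by linarith, by linarith, by linarith⟩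

theorem Hx01 : Hx 0 1 = hex (2 * ζ - 1) 1 := by
  unfold Hx lam; congr 1; push_cast; ring
theorem Hx0m : Hx 0 (-1) = hex 1 (-1) := by
  rw [Hx3]; unfold lam; congr 1; push_cast; ring
theorem Hx00 : Hx 0 0 = hex 0 1 := by
  unfold Hx lam; congr 1; push_cast; ring

theorem row_disk : IsDisk (⋃₀ row) := by
  have eU : ⋃₀ row = (Hx 0 0 ∪ Hx 0 1) ∪ Hx 0 (-1) := by
    unfold row
    rw [sUnion_insert, sUnion_insert, sUnion_singleton]
    rw [union_comm]
  have tc := std_facts (T := tri (2 * ζ - 1) 1) one_ne_zero (Or.inl rfl)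
  have bc := std_facts (T := tri 1 (-1)) neg_one_ne (Or.inl rfl)
  have hc1 := std_facts (T := Hx 0 1) one_ne_zero (Or.inr Hx01)
  have hcm := std_facts (T := Hx 0 (-1)) neg_one_ne (Or.inr Hx0m)
  have hc0 := std_facts (T := Hx 0 0) one_ne_zero (Or.inr Hx00)
  -- the rhombus
  have hr : Pool.Agent.R175.Disk.IsDisk ((Hx 0 0 ∪ tri 1 (-1)) ∪ tri (2 * ζ - 1) 1) := by
    apply Pool.Agent.R175.Disk.disk_of_convex
    · rw [rhombus_eq]; exact AB_convex _ _ _ _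
    · exact (hc0.1.union bc.1).union tc.1
    · exact hc0.2.2.mono (interior_mono (subset_union_left.trans subset_union_left))
  -- the upper hexagon
  have h1 : Pool.Agent.R175.Disk.IsDisk ((Hx 0 0 ∪ tri 1 (-1)) ∪ Hx 0 1) := by
    obtain ⟨p, hp⟩ := tc.2.2
    refine Pool.Agent.R175.Disk.glue (C := tri (2 * ζ - 1) 1) (hc0.1.union bc.1).isClosed hc1.2.1 hc1.1
      tc.2.1 tc.1 hp (by rw [Hx01]; exact tri_sub_hex one_ne_zero) ?_ hr
    intro z hz hz1
    have hz1' := hz1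
    rw [mem_Hx] at hz1
    push_cast at hz1
    have hz2 : B z = 2 ∧ z ∈ tri (2 * ζ - 1) 1 := by
      rcases hz with hz | hz
      · rw [mem_Hx] at hz
        push_cast at hz
        obtain ⟨⟨g1, g2⟩, ⟨g3, g4⟩, ⟨g5, g6⟩⟩ := hz
        have : B z = 2 := by linarith [hz1.2.1.1]
        refine ⟨this, (mem_top z).2 ⟨by linarith, by linarith, by linarith⟩⟩
      · rw [mem_bot] at hz
        linarith [hz1.2.1.1, hz.2.1]
    have e : B ((z - (2 * ζ - 1)) / 1) = 0 := by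
      rw [B_odiv, two_zeta]
      simp only [B_sub, B_add, B_one, B_zeta]
      linarith [hz2.1]
    exact ⟨not_int one_ne_zero (Or.inr Hx01) hz1' e, not_int one_ne_zero (Or.inl rfl) hz2.2 e⟩
  -- the lower hexagon
  have h2 : Pool.Agent.R175.Disk.IsDisk ((Hx 0 0 ∪ Hx 0 1) ∪ Hx 0 (-1)) := by
    obtain ⟨p, hp⟩ := bc.2.2
    refine Pool.Agent.R175.Disk.glue (C := tri 1 (-1)) (hc0.1.union hc1.1).isClosed hcm.2.1 hcm.1
      bc.2.1 bc.1 hp (by rw [Hx0m]; exact tri_sub_hex neg_one_ne) ?_ ?_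
    · intro z hz hz1
      have hz1' := hz1
      rw [mem_Hx] at hz1
      push_cast at hz1
      have hz2 : B z = 0 ∧ z ∈ tri 1 (-1) := by
        rcases hz with hz | hz
        · rw [mem_Hx] at hz
          push_cast at hz
          obtain ⟨⟨g1, g2⟩, ⟨g3, g4⟩, ⟨g5, g6⟩⟩ := hz
          have : B z = 0 := by linarith [hz1.2.1.2]
          refine ⟨this, (mem_bot z).2 ⟨by linarith, by linarith, by linarith⟩⟩
        · rw [mem_Hx] at hz
          push_cast at hz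
          linarith [hz1.2.1.2, hz.2.1.1]
      have e : B ((z - 1) / -1) = 0 := by
        rw [B_ndiv, B_odiv, B_sub, B_one]
        linarith [hz2.1]
      exact ⟨not_int neg_one_ne (Or.inr Hx0m) hz1' e, not_int neg_one_ne (Or.inl rfl) hz2.2 e⟩
    · have e : (Hx 0 0 ∪ Hx 0 1) ∪ tri 1 (-1) = (Hx 0 0 ∪ tri 1 (-1)) ∪ Hx 0 1 := by
        rw [union_assoc, union_comm (Hx 0 1), ← union_assoc]
      rw [e]; exact h1
  rw [eU]; exact h2

theorem row_patch : IsPatch row where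
  finite := by unfold row; exact Set.toFinite _
  arr := by
    refine ⟨fun T hT => tiling_arr.tiles T (row_sub hT), fun S hS T hT => tiling_arr.area S (row_sub hS) T (row_sub hT),
      fun S hS T hT => tiling_arr.edge S (row_sub hS) T (row_sub hT)⟩
  disk := row_disk
  admissible := by
    rintro v ⟨T, hT, hc⟩
    have h := tiling_vertex ⟨T, row_sub hT, hc⟩
    constructor
    · rw [← h.1]
      exact encard_le_encard (fun S hS => ⟨row_sub hS.1, hS.2⟩)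
    · rw [← h.2]
      exact encard_le_encard (fun S hS => ⟨row_sub hS.1, hS.2⟩)

/-- A patch of three hexagons that is contained in a tiling of the plane, but in no convex patch. -/
theorem result : ∃ P : Set (Set ℂ), IsPatch P ∧ P.ncard = 3 ∧ (∃ F, IsTiling F ∧ P ⊆ F) ∧
    ¬ ∃ Q, IsPatch Q ∧ Convex ℝ (⋃₀ Q) ∧ P ⊆ Q := by
  refine ⟨row, row_patch, ?_, ⟨tiling, isTiling, row_sub⟩, ?_⟩
  · rw [Set.ncard_eq_three]
    refine ⟨_, _, _, ?_, ?_, ?_, rfl⟩
    · intro h; have := (Hx_inj h).2; omega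
    · intro h; have := (Hx_inj h).2; omega
    · intro h; have := (Hx_inj h).2; omega
  · rintro ⟨Q, hQ, hK, hsub⟩
    have h0 : hex 0 1 ∈ Q := by rw [← Hx00]; exact hsub (by unfold row; simp)
    have h1 : hex (2 * ζ - 1) 1 ∈ Q := by rw [← Hx01]; exact hsub (by unfold row; simp)
    have hm : hex 1 (-1) ∈ Q := by rw [← Hx0m]; exact hsub (by unfold row; simp)
    refine no_convex hQ hK (p := 0) ⟨h0, by rw [zero_add]; exact hm⟩ ⟨by rw [zero_add]; exact h1, ?_⟩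
    have e : hex (0 + (2 * ζ - 1) + 1) (-1) = hex 0 1 := by
      rw [← Hx00, Hx3]; unfold lam; congr 1; push_cast; ring
    rw [e]; exact h0

end Pool.Agent.Results.MP_12bd27_co.ThreeHexagons
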